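import Pool.Agent.Work.MP_b51559_nt.BG.TP.Many
import Pool.Agent.Work.MP_b51559_nt.BG.D.AllM

set_option autoImplicit false

/-!
# More than r primes: the lattice test function, the criterion as an inequality of integers
-/

namespace MPb51559.BG.TP

open Finset MeasureTheory Polynomial MPb51559.BG.D

/-- the data: one product, no slices -/
def lat (N0 J : ℕ) (c h : ℕ → ℕ) : Dat where
  n0 := N0
  J := J
  A := 1
  g := fun _ j => (c j : ℤ)
  H := fun _ n => (h n : ℤ)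
  la := fun _ => 0
  ld := 1
  den := 1
  r := fun _ => 0

/-- the coefficients of the power -/
noncomputable def bN (J : ℕ) (c : ℕ → ℕ) (κ n : ℕ) : ℕ :=
  ((∑ j ∈ range (J + 1), C (c j ^ 2) * X ^ j : ℕ[X]) ^ κ).coeff n

/-- the sums of the marginal -/
def HN (J : ℕ) (c h : ℕ → ℕ) (n : ℕ) : ℕ := ∑ j ∈ range (J + 1 - n), c j * h (n + j)

/-- the sums of the squares -/
def QN (J : ℕ) (c h : ℕ → ℕ) (n : ℕ) : ℕ := ∑ j ∈ range (J + 1 - n), c j ^ 2 * h (n + j) ^ 2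

theorem lat_P (N0 J : ℕ) (c h : ℕ → ℕ) (κ n : ℕ) :
    (((lat N0 J c h).P 0 0) ^ κ).coeff n = (bN J c κ n : ℤ) := by
  have e : (lat N0 J c h).P 0 0 =
      (∑ j ∈ range (J + 1), C (c j ^ 2) * X ^ j : ℕ[X]).map (Nat.castRingHom ℤ) := by
    rw [Polynomial.map_sum]
    unfold Dat.P lat
    refine Finset.sum_congr rfl fun j _ => ?_
    rw [Polynomial.map_mul, Polynomial.map_pow, Polynomial.map_X, Polynomial.map_C]
    congr 2
    push_cast
    ring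
  rw [e, ← Polynomial.map_pow, Polynomial.coeff_map]
  rfl

/-- the coefficient of the next power -/
theorem bN_succ (J : ℕ) (c : ℕ → ℕ) (κ N : ℕ) (hN : N ≤ J) :
    bN J c (κ + 1) N = ∑ p ∈ antidiagonal N, bN J c κ p.1 * c p.2 ^ 2 := by
  unfold bN
  rw [pow_succ, Polynomial.coeff_mul]
  refine Finset.sum_congr rfl fun p hp => ?_
  congr 1
  have hp2 : p.2 < J + 1 := by
    have := mem_antidiagonal.1 hp
    omega
  rw [Polynomial.finsetSum_coeff]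
  simp only [Polynomial.coeff_C_mul_X_pow]
  rw [Finset.sum_ite_eq, if_pos (mem_range.2 hp2)]

/-- the discrete integral of `F ^ 2` -/
theorem lat_IS (N0 J : ℕ) (c h : ℕ → ℕ) (κ : ℕ) :
    (lat N0 J c h).IS (κ + 1) =
      ((∑ n ∈ range (J + 1), bN J c κ n * QN J c h n : ℕ) : ℤ) := by
  have e1 : (lat N0 J c h).IS (κ + 1) =
      ∑ N ∈ range (J + 1), (h N : ℤ) * (h N : ℤ) * (bN J c (κ + 1) N : ℤ) := by
    unfold Dat.IS
    have hA : (lat N0 J c h).A = 1 := rfl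
    have hJ : (lat N0 J c h).J = J := rfl
    rw [hA, hJ, sum_range_one, sum_range_one]
    refine Finset.sum_congr rfl fun N _ => ?_
    rw [lat_P]
    rfl
  rw [e1]
  have e2 : ∀ N ∈ range (J + 1), (h N : ℤ) * (h N : ℤ) * (bN J c (κ + 1) N : ℤ) =
      ((∑ n ∈ range (N + 1), bN J c κ n * (c (N - n) ^ 2 * h N ^ 2) : ℕ) : ℤ) := by
    intro N hN
    rw [bN_succ J c κ N (by have := mem_range.1 hN; omega),
      Finset.Nat.sum_antidiagonal_eq_sum_range_succ (fun a b => bN J c κ a * c b ^ 2)]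
    push_cast
    rw [mul_sum]
    refine Finset.sum_congr rfl fun n _ => ?_
    ring
  rw [Finset.sum_congr rfl e2, ← Nat.cast_sum]
  congr 1
  -- exchange
  have e3 : ∑ N ∈ range (J + 1), ∑ n ∈ range (N + 1), bN J c κ n * (c (N - n) ^ 2 * h N ^ 2) =
      ∑ n ∈ range (J + 1), ∑ j ∈ range (J + 1 - n), bN J c κ n * (c j ^ 2 * h (n + j) ^ 2) := by
    rw [Finset.sum_sigma', Finset.sum_sigma']
    refine Finset.sum_bij' (fun p _ => ⟨p.2, p.1 - p.2⟩) (fun p _ => ⟨p.1 + p.2, p.1⟩) ?_ ?_ ?_ ?_ ?_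
    · rintro ⟨N, n⟩ hp
      rw [mem_sigma, mem_range, mem_range] at hp ⊢
      simp only at hp ⊢
      omega
    · rintro ⟨n, j⟩ hp
      rw [mem_sigma, mem_range, mem_range] at hp ⊢
      simp only at hp ⊢
      omega
    · rintro ⟨N, n⟩ hp
      rw [mem_sigma, mem_range, mem_range] at hp
      simp only at hp ⊢
      have : n + (N - n) = N := by omega
      rw [this]
    · rintro ⟨n, j⟩ hp
      simp only
      have : n + j - n = j := by omega
      rw [this]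
    · rintro ⟨N, n⟩ hp
      rw [mem_sigma, mem_range, mem_range] at hp
      simp only at hp ⊢
      have : n + (N - n) = N := by omega
      rw [this]
  rw [e3]
  refine Finset.sum_congr rfl fun n _ => ?_
  unfold QN
  rw [mul_sum]

/-- the slices: none -/
noncomputable def Pl (T : ℝ) : Sl := ⟨T, 0, fun _ => 0, fun _ => 0⟩

theorem Pl_ok {T : ℝ} (h1 : 1 < T) (h2 : T < 2) : (Pl T).Ok where
  hT1 := h1
  hT2 := h2
  z0 := rfl
  zmono := by intro l hl; simp [Pl] at hl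
  zT := by simp only [Pl]; linarith
  Lpos := by intro l hl; simp [Pl] at hl
  Lmono := by intro l hl; simp [Pl] at hl

theorem Pl_rho (T s : ℝ) : (Pl T).rho s = if s ≤ 2 - T then 1 else 0 := by
  unfold Sl.rho
  simp only [Pl, range_zero, sum_empty]

theorem lat_Jm (N0 J : ℕ) (c h : ℕ → ℕ) (hN : 0 < N0) (T : ℝ) (κ : ℕ) (m : Fin (κ + 1)) :
    Jm (Pl T) ((lat N0 J c h).F (κ + 1)) m = (1 / (N0 : ℝ)) ^ 2 *
      ∫ s : Fin κ → ℝ, (Pl T).rho (∑ i, s i) *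
        D.stp N0 (fun n : Fin κ → ℕ => ((lat N0 J c h).G n : ℝ)) s ^ 2 := by
  set Z := lat N0 J c h with hZ
  set Ψ : (Fin κ → ℝ) → ℝ := fun s => (Pl T).rho (∑ i, s i) *
    ((1 / (N0 : ℝ)) * D.stp N0 (fun n : Fin κ → ℕ => (Z.G n : ℝ)) s) ^ 2 with hΨ
  have hint : (fun t : Fin (κ + 1) → ℝ => (Pl T).rho (∑ j ∈ univ.erase m, t j) *
      marg (Z.F (κ + 1)) m t ^ 2) = fun t => Ψ (fun j => t (m.succAbove j)) := by
    funext t
    rw [JmE_sum m t, prf_Mrg prf_Idx Z hN κ m t]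
    rfl
  unfold Jm
  rw [hint, prf_Spl κ m Ψ, ← integral_const_mul]
  refine congrArg (fun f : (Fin κ → ℝ) → ℝ => ∫ s, f s) ?_
  funext s
  rw [hΨ]
  ring

theorem lat_G (N0 J : ℕ) (c h : ℕ → ℕ) {κ : ℕ} (n : Fin κ → ℕ) :
    (lat N0 J c h).G n = (HN J c h (∑ i, n i) : ℤ) * ∏ i, (c (n i) : ℤ) := by
  unfold Dat.G
  have hA : (lat N0 J c h).A = 1 := rfl
  rw [hA, sum_range_one]
  congr 1
  unfold Dat.W HN
  push_cast
  rfl

/-- the sum over the cells -/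
theorem lat_JS (N0 J : ℕ) (c h : ℕ → ℕ) (κ nJ : ℕ) :
    ∑ n ∈ Fintype.piFinset (fun _ : Fin κ => range (J + 1)),
      (if ∑ i, n i ≤ nJ then ((lat N0 J c h).G n : ℝ) ^ 2 else 0) =
    ((∑ n ∈ range (nJ + 1), bN J c κ n * HN J c h n ^ 2 : ℕ) : ℝ) := by
  have hH0 : ∀ N, J + 1 ≤ N → HN J c h N = 0 := by
    intro N hN
    unfold HN
    rw [Nat.sub_eq_zero_of_le hN]
    simp
  have h1 := prf_Cmb κ (J + 1) (J + 1)
    (fun N => if N ≤ nJ then ((HN J c h N : ℤ)) ^ 2 else 0) (fun j => ((c j : ℤ)) ^ 2) (by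
      intro N hN
      rw [hH0 N hN]
      simp)
  have e1 : ∑ n ∈ Fintype.piFinset (fun _ : Fin κ => range (J + 1)),
      (if ∑ i, n i ≤ nJ then ((lat N0 J c h).G n : ℝ) ^ 2 else 0) =
      ((∑ n ∈ Fintype.piFinset (fun _ : Fin κ => range (J + 1)),
        (if ∑ i, n i ≤ nJ then ((HN J c h (∑ i, n i) : ℤ)) ^ 2 else 0) *
          ∏ i, ((c (n i) : ℤ)) ^ 2 : ℤ) : ℝ) := by
    rw [Int.cast_sum]
    refine Finset.sum_congr rfl fun n _ => ?_
    rw [lat_G]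
    split_ifs
    · push_cast
      rw [mul_pow, Finset.prod_pow]
    · simp
  rw [e1, h1]
  have e2 : (∑ j ∈ range (J + 1), C (((c j : ℤ)) ^ 2) * X ^ j : ℤ[X]) = (lat N0 J c h).P 0 0 := by
    unfold Dat.P lat
    refine Finset.sum_congr rfl fun j _ => ?_
    rw [sq]
  rw [e2]
  simp only [lat_P]
  have e3 : ∑ N ∈ range (J + 1), (if N ≤ nJ then ((HN J c h N : ℤ)) ^ 2 else 0) *
      (bN J c κ N : ℤ) = ((∑ n ∈ range (nJ + 1), bN J c κ n * HN J c h n ^ 2 : ℕ) : ℤ) := by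
    push_cast
    have e4 : ∑ N ∈ range (J + 1), (if N ≤ nJ then ((HN J c h N : ℤ)) ^ 2 else 0) *
        (bN J c κ N : ℤ) = ∑ N ∈ (range (J + 1)).filter (fun N => N ≤ nJ),
          (bN J c κ N : ℤ) * ((HN J c h N : ℤ)) ^ 2 := by
      rw [Finset.sum_filter]
      refine Finset.sum_congr rfl fun N _ => ?_
      split_ifs <;> ring
    rw [e4]
    refine Finset.sum_subset ?_ ?_
    · intro N hN
      rw [mem_filter] at hN
      exact mem_range.2 (Nat.lt_succ_of_le hN.2)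
    · intro N hN hN2
      have h5 : J + 1 ≤ N := by
        by_contra hc
        exact hN2 (mem_filter.2 ⟨mem_range.2 (not_le.1 hc),
          Nat.lt_succ_iff.1 (mem_range.1 hN)⟩)
      rw [hH0 N h5]
      simp
  rw [e3]
  push_cast
  rfl

/-- the prime form from below -/
theorem lat_low (N0 J nJ : ℕ) (c h : ℕ → ℕ) (hN : 0 < N0) (κ : ℕ)
    (hnJ : nJ + 2 * (κ + 1) + J ≤ 2 * N0 + 1) (m : Fin (κ + 1)) :
    (1 / (N0 : ℝ)) ^ (κ + 2) *
      ((∑ n ∈ range (nJ + 1), bN J c κ n * HN J c h n ^ 2 : ℕ) : ℝ) ≤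
    Jm (Pl (((J : ℝ) + (κ + 1 : ℕ)) / N0)) ((lat N0 J c h).F (κ + 1)) m := by
  set Z := lat N0 J c h with hZ
  set T : ℝ := ((J : ℝ) + (κ + 1 : ℕ)) / N0 with hT
  have hN' : (0 : ℝ) < N0 := by exact_mod_cast hN
  have hCel := prf_Cel prf_Idx
  have hStp := prf_Stp hCel
  rw [lat_Jm N0 J c h hN T κ m, ← lat_JS N0 J c h κ nJ]
  have e0 : (1 / (N0 : ℝ)) ^ (κ + 2) = (1 / (N0 : ℝ)) ^ 2 * (1 / (N0 : ℝ)) ^ κ := by
    rw [pow_add, mul_comm]
  rw [e0, mul_assoc]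
  refine mul_le_mul_of_nonneg_left ?_ (by positivity)
  have hG0 : ∀ n : Fin κ → ℕ, n ∉ Fintype.piFinset (fun _ : Fin κ => range (J + 1)) →
      ((Z.G n : ℤ) : ℝ) = 0 := by
    intro n hn
    have h1 : J + 1 ≤ ∑ i, n i := by
      by_contra hc
      apply hn
      rw [Fintype.mem_piFinset]
      intro i
      rw [mem_range]
      exact lt_of_le_of_lt (single_le_sum (f := n) (fun _ _ => Nat.zero_le _) (mem_univ i))
        (not_le.1 hc)
    have h2 := NumD_G_zero Z n h1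
    rw [h2, Int.cast_zero]
  obtain ⟨-, hm1, hi1, hv1⟩ := hStp κ N0 (J + 1) hN
    (fun n : Fin κ → ℕ => if ∑ i, n i ≤ nJ then ((Z.G n : ℤ) : ℝ) ^ 2 else 0) (by
      intro n hn
      rw [hG0 n hn]
      simp)
  obtain ⟨-, hm2, hi2, hv2⟩ := hStp κ N0 (J + 1) hN
    (fun n : Fin κ → ℕ => ((Z.G n : ℤ) : ℝ) ^ 2) (by
      intro n hn
      rw [hG0 n hn]
      simp)
  obtain ⟨-, hm3, hi3, hv3⟩ := hStp κ N0 (J + 1) hN
    (fun n : Fin κ → ℕ => ((Z.G n : ℤ) : ℝ)) hG0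
  have hsq : ∀ s : Fin κ → ℝ, D.stp N0 (fun n : Fin κ → ℕ => ((Z.G n : ℤ) : ℝ)) s ^ 2 =
      D.stp N0 (fun n : Fin κ → ℕ => ((Z.G n : ℤ) : ℝ) ^ 2) s := by
    intro s
    unfold D.stp
    split_ifs
    · rfl
    · simp
  rw [← hv1]
  have hrho : ∀ s : ℝ, 0 ≤ (Pl T).rho s ∧ (Pl T).rho s ≤ 1 := by
    intro s
    rw [Pl_rho]
    split_ifs <;> norm_num
  have hrhom : Measurable fun s : Fin κ → ℝ => (Pl T).rho (∑ i, s i) := by
    have : (fun s : Fin κ → ℝ => (Pl T).rho (∑ i, s i)) =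
        fun s => if ∑ i, s i ≤ 2 - T then (1 : ℝ) else 0 := by
      funext s
      rw [Pl_rho]
    rw [this]
    refine Measurable.ite ?_ measurable_const measurable_const
    exact measurableSet_le (Finset.measurable_sum _ fun j _ => measurable_pi_apply j)
      measurable_const
  refine integral_mono hi1 ?_ ?_
  · refine hi2.mono' ?_ ?_
    · exact (hrhom.mul (hm3.pow_const 2)).aestronglyMeasurable
    · refine Filter.Eventually.of_forall fun s => ?_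
      rw [Real.norm_eq_abs, abs_mul, abs_of_nonneg (hrho _).1, abs_of_nonneg (sq_nonneg _),
        ← hsq s]
      calc (Pl T).rho (∑ i, s i) * D.stp N0 (fun n : Fin κ → ℕ => ((Z.G n : ℤ) : ℝ)) s ^ 2 ≤
          1 * D.stp N0 (fun n : Fin κ → ℕ => ((Z.G n : ℤ) : ℝ)) s ^ 2 :=
            mul_le_mul_of_nonneg_right (hrho _).2 (sq_nonneg _)
        _ = _ := one_mul _
  · intro s
    show D.stp N0 (fun n : Fin κ → ℕ => if ∑ i, n i ≤ nJ then ((Z.G n : ℤ) : ℝ) ^ 2 else 0) s ≤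
      (Pl T).rho (∑ i, s i) * D.stp N0 (fun n : Fin κ → ℕ => ((Z.G n : ℤ) : ℝ)) s ^ 2
    rw [hsq s]
    unfold D.stp
    by_cases hs : ∀ i, 0 < s i
    · rw [if_pos hs, if_pos hs]
      beta_reduce
      by_cases hle : ∑ i, D.idx N0 (s i) ≤ nJ
      · rw [if_pos hle, Pl_rho, if_pos, one_mul]
        -- the sum of the coordinates
        have h1 : ∀ i, s i ≤ ((D.idx N0 (s i) : ℝ) + 1) / N0 := fun i =>
          ((prf_Idx N0 hN (s i) (D.idx N0 (s i))).1 ⟨hs i, rfl⟩).2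
        have h2 : ∑ i, s i ≤ ∑ i : Fin κ, ((D.idx N0 (s i) : ℝ) + 1) / N0 :=
          Finset.sum_le_sum fun i _ => h1 i
        have h3 : ∑ i : Fin κ, ((D.idx N0 (s i) : ℝ) + 1) / N0 =
            ((∑ i, D.idx N0 (s i) : ℕ) + (κ : ℝ)) / N0 := by
          rw [← Finset.sum_div, Finset.sum_add_distrib]
          push_cast
          simp
        refine h2.trans ?_
        rw [h3, hT, div_le_iff₀ hN', sub_mul, div_mul_cancel₀ _ hN'.ne']
        have h4 : ((∑ i, D.idx N0 (s i) : ℕ) : ℝ) ≤ nJ := by exact_mod_cast hle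
        have h5 : (nJ : ℝ) + 2 * (κ + 1) + J ≤ 2 * N0 + 1 := by exact_mod_cast hnJ
        push_cast at h4 ⊢
        linarith
      · rw [if_neg hle]
        exact mul_nonneg (hrho _).1 (sq_nonneg _)
    · rw [if_neg hs, if_neg hs, mul_zero]

/-- THE CRITERION as an inequality of integers -/
theorem lat_crit (r κ N0 J nJ : ℕ) (c h : ℕ → ℕ) (hκ : 1 ≤ κ) (hT1 : N0 < J + (κ + 1))
    (hnJ : nJ + 2 * (κ + 1) + J ≤ 2 * N0 + 1)
    (hnum : 4 * r * N0 * ∑ n ∈ range (J + 1), bN J c κ n * QN J c h n <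
      (κ + 1) * ∑ n ∈ range (nJ + 1), bN J c κ n * HN J c h n ^ 2) :
    ∃ (P : Sl) (F : (Fin (κ + 1) → ℝ) → ℝ), P.Ok ∧ Tst (κ + 1) P.T F ∧ CritR r P F := by
  have hN : 0 < N0 := by omega
  have hN' : (0 : ℝ) < N0 := by exact_mod_cast hN
  have hCel := prf_Cel prf_Idx
  have hStp := prf_Stp hCel
  refine ⟨Pl (((J : ℝ) + (κ + 1 : ℕ)) / N0), (lat N0 J c h).F (κ + 1), Pl_ok ?_ ?_,
    prf_Tst prf_Idx hStp prf_Var prf_Bdf (lat N0 J c h) hN (κ + 1), ?_⟩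
  · rw [lt_div_iff₀ hN', one_mul]
    exact_mod_cast hT1
  · rw [div_lt_iff₀ hN']
    have : J + (κ + 1) < 2 * N0 := by omega
    exact_mod_cast this
  · unfold CritR
    rw [prf_I2 hStp prf_Bdf prf_ISm prf_Cmb (lat N0 J c h) hN (κ + 1), lat_IS]
    have hlow : (κ + 1 : ℕ) • ((1 / (N0 : ℝ)) ^ (κ + 2) *
        ((∑ n ∈ range (nJ + 1), bN J c κ n * HN J c h n ^ 2 : ℕ) : ℝ)) ≤
        ∑ m, Jm (Pl (((J : ℝ) + (κ + 1 : ℕ)) / N0)) ((lat N0 J c h).F (κ + 1)) m := by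
      have h1 := Finset.card_nsmul_le_sum (univ : Finset (Fin (κ + 1)))
        (fun m => Jm (Pl (((J : ℝ) + (κ + 1 : ℕ)) / N0)) ((lat N0 J c h).F (κ + 1)) m)
        _ (fun m _ => lat_low N0 J nJ c h hN κ hnJ m)
      rwa [card_univ, Fintype.card_fin] at h1
    refine lt_of_lt_of_le ?_ hlow
    set I : ℕ := ∑ n ∈ range (J + 1), bN J c κ n * QN J c h n with hI
    set S : ℕ := ∑ n ∈ range (nJ + 1), bN J c κ n * HN J c h n ^ 2 with hS
    have h2 : (4 * r * N0 * I : ℝ) < (κ + 1) * S := by exact_mod_cast hnum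
    have hn0 : (lat N0 J c h).n0 = N0 := rfl
    rw [hn0, nsmul_eq_mul, Int.cast_natCast]
    have e1 : (4 : ℝ) * r * ((1 / (N0 : ℝ)) ^ (κ + 1) * I) =
        (1 / (N0 : ℝ)) ^ (κ + 2) * (4 * r * N0 * I) := by
      have : (1 / (N0 : ℝ)) * N0 = 1 := by field_simp
      calc (4 : ℝ) * r * ((1 / (N0 : ℝ)) ^ (κ + 1) * I) =
          4 * r * ((1 / (N0 : ℝ)) ^ (κ + 1) * ((1 / (N0 : ℝ)) * N0) * I) := by
            rw [this, mul_one]
        _ = _ := by ring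
    have e2 : ((κ + 1 : ℕ) : ℝ) * ((1 / (N0 : ℝ)) ^ (κ + 2) * S) =
        (1 / (N0 : ℝ)) ^ (κ + 2) * ((κ + 1) * S) := by
      push_cast
      ring
    rw [e1, e2]
    exact mul_lt_mul_of_pos_left h2 (by positivity)

/-- more than `r` primes from an inequality of integers -/
theorem lat_many (hBV : BVE) (hP : PNTW) (r κ N0 J nJ : ℕ) (c h : ℕ → ℕ) (hr : 0 < r)
    (hκ : 1 ≤ κ) (hT1 : N0 < J + (κ + 1)) (hnJ : nJ + 2 * (κ + 1) + J ≤ 2 * N0 + 1)
    (hnum : 4 * r * N0 * ∑ n ∈ range (J + 1), bN J c κ n * QN J c h n <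
      (κ + 1) * ∑ n ∈ range (nJ + 1), bN J c κ n * HN J c h n ^ 2)
    (a : Fin (κ + 1) → ℕ) (ha : Adm a) : ManyPrimes r a := by
  obtain ⟨P, F, hOk, hF, hC⟩ := lat_crit r κ N0 J nJ c h hκ hT1 hnJ hnum
  exact sieve_many hBV hP r hr (κ + 1) (Nat.succ_pos κ) a ha P hOk F hF hC

end MPb51559.BG.TP
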