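import Pool.Agent.Work.MP_b51559_nt.BG.C.All

set_option autoImplicit false

/-!
# More than r primes among the translates of an admissible tuple

Same sieve as for two primes, with the criterion `4 * r * ∫ F ^ 2 < ∑ m, Jm P F m`.
-/

namespace MPb51559.BG

open Finset Filter Topology MeasureTheory
open scoped Classical

/-- more than `r` primes among the translates of a tuple, in (x, 2x) -/
def ManyPrimes (r : ℕ) {k : ℕ} (h : Fin k → ℕ) : Prop := ∃ x0 : ℝ, ∀ x ≥ x0, ∃ n : ℕ, x < n ∧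
  (∀ i, (n + h i : ℝ) < 2 * x) ∧ r < (univ.filter (fun i : Fin k => (n + h i).Prime)).card

/-- the criterion for more than `r` primes -/
def CritR (r : ℕ) {k : ℕ} (P : Sl) (F : (Fin k → ℝ) → ℝ) : Prop :=
  4 * r * ∫ t, F t ^ 2 < ∑ m, Jm P F m

theorem pos_many (r : ℕ) : ∀ w, Wt w → ∀ (k : ℕ) (h : Fin k → ℕ), 0 < k →
    ∃ x0 : ℝ, ∀ x ≥ x0, ∀ (D0 v0 : ℕ) (S : Finset ℕ) (l : Co S k → ℝ),
    r * (Real.log (2 * x) * S1 w h D0 v0 x l l) < ∑ m, S2 w h D0 v0 x m l l →
    ∃ n : ℕ, x < n ∧ (∀ i, (n + h i : ℝ) < 2 * x) ∧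
      r < (univ.filter (fun i : Fin k => (n + h i).Prime)).card := by
  intro w hw k h hk
  refine ⟨8 * (∑ i, (h i : ℝ)) + 8, fun x hx D0 v0 S l hS => ?_⟩
  have hH0 : ∀ i, (0 : ℝ) ≤ h i := fun i => Nat.cast_nonneg _
  have hHs : ∀ i, (h i : ℝ) ≤ ∑ j, (h j : ℝ) := fun i =>
    Finset.single_le_sum (f := fun j => (h j : ℝ)) (fun j _ => hH0 j) (mem_univ i)
  have hsum0 : 0 ≤ ∑ j, (h j : ℝ) := sum_nonneg fun j _ => hH0 j
  have hx1 : 1 ≤ x := by linarith
  have hx0 : 0 < x := by linarith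
  have hlog : 0 ≤ Real.log (2 * x) := Real.log_nonneg (by linarith)
  have hS2 : ∑ m, S2 w h D0 v0 x m l l =
      ∑ n ∈ (range (⌊2 * x⌋₊ + 1)).filter (fun n => n ≡ v0 [MOD primorial D0]),
        (∑ m, tm w h x m n) * (Vn h l n * Vn h l n) := by
    simp only [S2, sum_mul]
    rw [sum_comm]
  rw [hS2, S1, mul_sum, mul_sum] at hS
  obtain ⟨n, -, hn⟩ := exists_lt_of_sum_lt hS
  have hV : 0 ≤ Vn h l n * Vn h l n := mul_self_nonneg _
  have hlt : r * (Real.log (2 * x) * wp w h x n) < ∑ m, tm w h x m n := by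
    by_contra hc
    have h1 := mul_le_mul_of_nonneg_right (not_lt.1 hc) hV
    have h2 : r * (Real.log (2 * x) * wp w h x n) * (Vn h l n * Vn h l n) =
      r * (Real.log (2 * x) * (wp w h x n * (Vn h l n * Vn h l n))) := by ring
    rw [h2] at h1
    exact absurd hn (not_lt.2 h1)
  have hbdd : BddAbove (Set.range fun m : Fin k => w (((n : ℝ) + h m) / x)) :=
    Set.Finite.bddAbove (Set.finite_range _)
  have hwp : ∀ m : Fin k, w (((n : ℝ) + h m) / x) ≤ wp w h x n := fun m => le_ciSup hbdd m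
  have hwp0 : 0 ≤ wp w h x n := (hw.nonneg _).trans (hwp ⟨0, hk⟩)
  have hterm : ∀ m : Fin k, tm w h x m n ≠ 0 → (n + h m).Prime ∧
      9 / 8 * x < (n : ℝ) + h m ∧ (n : ℝ) + h m < 15 / 8 * x := by
    intro m hm
    unfold tm at hm
    split_ifs at hm with hp
    · have h1 := hw.supp _ (right_ne_zero_of_mul hm)
      exact ⟨hp, (lt_div_iff₀ hx0).1 h1.1, (div_lt_iff₀ hx0).1 h1.2⟩
    · exact absurd rfl hm
  have hle : ∀ m : Fin k, tm w h x m n ≤ Real.log (2 * x) * wp w h x n := by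
    intro m
    by_cases hm : tm w h x m n = 0
    · rw [hm]
      exact mul_nonneg hlog hwp0
    · obtain ⟨hp, h1, h2⟩ := hterm m hm
      unfold tm
      rw [if_pos hp]
      refine mul_le_mul ?_ (hwp m) (hw.nonneg _) hlog
      exact Real.log_le_log (by linarith) (by linarith)
  set A : ℝ := Real.log (2 * x) * wp w h x n with hA
  have hA0 : 0 ≤ A := mul_nonneg hlog hwp0
  set Q : Finset (Fin k) := univ.filter (fun i : Fin k => (n + h i).Prime) with hQ
  -- the sum is at most the number of primes times A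
  have hsumle : ∑ m, tm w h x m n ≤ Q.card * A := by
    have e1 : ∑ m, tm w h x m n = ∑ m ∈ Q, tm w h x m n := by
      symm
      apply sum_subset (subset_univ _)
      intro m _ hm
      by_contra hne
      exact hm (mem_filter.2 ⟨mem_univ _, (hterm m hne).1⟩)
    rw [e1, ← nsmul_eq_mul]
    exact sum_le_card_nsmul Q _ A fun m _ => hle m
  have hcard : r < Q.card := by
    by_contra hcon
    have h1 : (Q.card : ℝ) ≤ r := by exact_mod_cast not_lt.1 hcon
    have h2 : (Q.card : ℝ) * A ≤ r * A := mul_le_mul_of_nonneg_right h1 hA0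
    linarith
  -- some term is not zero
  obtain ⟨i, hi⟩ : ∃ i : Fin k, tm w h x i n ≠ 0 := by
    by_contra hno
    push Not at hno
    rw [sum_eq_zero fun m _ => hno m] at hlt
    have : 0 ≤ r * A := mul_nonneg (Nat.cast_nonneg r) hA0
    linarith
  obtain ⟨hpi, hi1, hi2⟩ := hterm i hi
  refine ⟨n, ?_, fun m => ?_, hcard⟩
  · have := hHs i
    linarith
  · have h1 := hHs m
    have h2 := hH0 i
    linarith

theorem main_many (r : ℕ) (hr : 0 < r) (hV0 : C_V0) : ∀ w, Wt w → ∀ (k : ℕ) (h : Fin k → ℕ),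
    0 < k → Adm h → ∀ (P : Sl) (F : (Fin k → ℝ) → ℝ), P.Ok → Tst k P.T F → CritR r P F →
    S1Concl w h F → S2Concl w h P F → ManyPrimes r h := by
  intro w hw k h hk hA P F hP hT hC h1 h2
  obtain ⟨xP, hxP⟩ := pos_many r w hw k h hk
  have hrR : (0 : ℝ) < r := by exact_mod_cast hr
  have hI : 0 ≤ ∫ t, F t ^ 2 := integral_nonneg fun t => sq_nonneg (F t)
  set I : ℝ := ∫ t, F t ^ 2 with hIdef
  set J : ℝ := ∑ m, Jm P F m with hJdef
  have hC' : 4 * r * I < J := hC
  have hkR : (0 : ℝ) < k := by exact_mod_cast hk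
  set g : ℝ := J - 4 * r * I with hg
  have hg0 : 0 < g := by linarith
  obtain ⟨δ1, hδ1, hδ1', h3⟩ := h2 (g / (4 * k)) (by positivity)
  set A : ℝ := 4 * r * (I + g / (32 * r)) with hAdef
  have hAval : A = 4 * r * I + g / 8 := by
    rw [hAdef]
    field_simp
    ring
  set Bv : ℝ := J - g / 4 with hB
  have hA0 : 0 < A := by
    rw [hAval]
    positivity
  have hAB : A < Bv := by
    rw [hAval, hB]
    linarith
  set δ : ℝ := min δ1 ((Bv - A) / (8 * (A + Bv))) with hδ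
  have hAB0 : 0 < A + Bv := by linarith
  have hδ0 : 0 < δ := by
    refine lt_min hδ1 (div_pos (by linarith) (by linarith))
  have hδle : δ ≤ δ1 := min_le_left _ _
  have hδ8 : δ < 1 / 8 := lt_of_le_of_lt hδle hδ1'
  have hδ4 : 0 < 1 - 4 * δ := by linarith
  obtain ⟨D1, hD1⟩ := h1 δ hδ0 hδ8 (g / (32 * r)) (by positivity)
  obtain ⟨D2, hD2⟩ := h3 δ hδ0 hδle
  obtain ⟨x1, hx1⟩ := hD1 (max D1 D2) (le_max_left _ _)
  obtain ⟨x2, hx2⟩ := hD2 (max D1 D2) (le_max_right _ _)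
  obtain ⟨v0, hv0⟩ := hV0 k h hA (max D1 D2)
  have hCA : A / (1 - 4 * δ) < Bv := by
    rw [div_lt_iff₀ hδ4]
    have e1 : δ ≤ (Bv - A) / (8 * (A + Bv)) := min_le_right _ _
    rw [le_div_iff₀ (by linarith)] at e1
    have e2 : 8 * δ * (A + Bv) ≤ Bv - A := by linarith
    have e3 : 4 * δ * Bv ≤ 4 * δ * (A + Bv) := by
      apply mul_le_mul_of_nonneg_left (by linarith) (by linarith)
    nlinarith
  set Cc : ℝ := A / (1 - 4 * δ) with hCc
  have hCc0 : 0 < Cc := div_pos hA0 hδ4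
  have hlog : ∀ᶠ x : ℝ in atTop, Real.log 2 * Cc / (Bv - Cc) < Real.log x :=
    Real.tendsto_log_atTop.eventually_gt_atTop _
  obtain ⟨x3, hx3⟩ := eventually_atTop.1 hlog
  refine ⟨max (max xP x1) (max (max x2 x3) 2), fun x hx => ?_⟩
  have g1 : xP ≤ x := le_trans (le_trans (le_max_left _ _) (le_max_left _ _)) hx
  have g2 : x1 ≤ x := le_trans (le_trans (le_max_right _ _) (le_max_left _ _)) hx
  have g3 : x2 ≤ x := le_trans (le_trans (le_trans (le_max_left _ _) (le_max_left _ _))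
    (le_max_right _ _)) hx
  have g4 : x3 ≤ x := le_trans (le_trans (le_trans (le_max_right _ _) (le_max_left _ _))
    (le_max_right _ _)) hx
  have g5 : 2 ≤ x := le_trans (le_trans (le_max_right _ _) (le_max_right _ _)) hx
  have hx0 : 0 < x := by linarith
  have hlx : 0 < Real.log x := Real.log_pos (by linarith)
  have hlR : Real.log (Rx δ x) = (1 - 4 * δ) / 4 * Real.log x := by
    rw [Rx, Real.log_rpow hx0]
    ring
  have hlR0 : 0 < Real.log (Rx δ x) := by
    rw [hlR]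
    positivity
  have hN := MAIN_Nn hw k (max D1 D2) (δ := δ) hx0 hlR0
  obtain ⟨l, hl⟩ : ∃ l : Co (Sx (max D1 D2) x) k → ℝ, l = lam aP (yF (Rx δ x) F) := ⟨_, rfl⟩
  have k1 := hx1 x g2 v0 hv0 l hl
  have k2 := fun m => hx2 x g3 v0 hv0 m l hl
  set S : ℝ := S1 w h (max D1 D2) v0 x l l with hS
  set N : ℝ := Nn w k (max D1 D2) δ x with hNdef
  refine hxP x g1 (max D1 D2) v0 (Sx (max D1 D2) x) l ?_
  have h5 : N * Bv ≤ ∑ m, S2 w h (max D1 D2) v0 x m l l := by
    have e1 : N * Bv = ∑ m, N * (Jm P F m - g / (4 * k)) := by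
      rw [← Finset.mul_sum, Finset.sum_sub_distrib, Finset.sum_const, Finset.card_univ,
        Fintype.card_fin, nsmul_eq_mul, hB]
      congr 2
      field_simp
    rw [e1]
    exact Finset.sum_le_sum fun m _ => k2 m
  refine lt_of_lt_of_le ?_ h5
  rw [← hS]
  have e0 : Real.log (2 * x) = Real.log 2 + Real.log x :=
    Real.log_mul (by norm_num) hx0.ne'
  have hl2 : 0 < Real.log 2 := Real.log_pos (by norm_num)
  have hl2x : 0 < Real.log (2 * x) := by rw [e0]; linarith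
  have h6 : r * Real.log (2 * x) * (S * Real.log (Rx δ x)) ≤
      r * Real.log (2 * x) * (N * (I + g / (32 * r))) :=
    mul_le_mul_of_nonneg_left k1 (mul_nonneg hrR.le hl2x.le)
  have h7 : r * Real.log (2 * x) * (N * (I + g / (32 * r))) < N * Bv * Real.log (Rx δ x) := by
    rw [hlR]
    have e1 : r * Real.log (2 * x) * (N * (I + g / (32 * r))) =
        N * (Real.log (2 * x) * (A / 4)) := by
      rw [hAdef]
      ring
    have e2 : N * Bv * ((1 - 4 * δ) / 4 * Real.log x) =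
        N * (Bv * (1 - 4 * δ) / 4 * Real.log x) := by ring
    rw [e1, e2]
    refine mul_lt_mul_of_pos_left ?_ hN
    have e3 : A = Cc * (1 - 4 * δ) := by
      rw [hCc, div_mul_cancel₀ _ hδ4.ne']
    have e4 : (Real.log 2 + Real.log x) * Cc < Bv * Real.log x := by
      have e5 := hx3 x g4
      rw [div_lt_iff₀ (by linarith)] at e5
      nlinarith
    rw [e0, e3]
    have e6 : (Real.log 2 + Real.log x) * (Cc * (1 - 4 * δ) / 4) =
        ((Real.log 2 + Real.log x) * Cc) * ((1 - 4 * δ) / 4) := by ring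
    have e7 : Bv * (1 - 4 * δ) / 4 * Real.log x = (Bv * Real.log x) * ((1 - 4 * δ) / 4) := by ring
    rw [e6, e7]
    exact mul_lt_mul_of_pos_right e4 (by positivity)
  have h8 : r * (Real.log (2 * x) * S) * Real.log (Rx δ x) < N * Bv * Real.log (Rx δ x) := by
    have e1 : r * (Real.log (2 * x) * S) * Real.log (Rx δ x) =
        r * Real.log (2 * x) * (S * Real.log (Rx δ x)) := by ring
    rw [e1]
    exact lt_of_le_of_lt h6 h7
  exact lt_of_mul_lt_mul_right h8 hlR0.le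

/-- the sieve theorem for more than `r` primes -/
theorem sieve_many (hBV : BVE) (hP : PNTW) (r : ℕ) (hr : 0 < r) (k : ℕ) (hk0 : 0 < k)
    (h : Fin k → ℕ) (hAdm : Adm h) (P : Sl) (hOk : P.Ok) (F : (Fin k → ℝ) → ℝ)
    (hF : Tst k P.T F) (hCrit : CritR r P F) : ManyPrimes r h := by
  obtain ⟨w, hw⟩ := prf_Wex
  have h1 : S1Concl w h F := all_S1A w hw k h hk0 hAdm.1 P.T F hOk.hT1 hOk.hT2 hF
  have h2 : UppConcl w h F := all_KB w hw k h hk0 hAdm.1 P.T F hOk.hT1 hOk.hT2 hF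
  have h3 : GramConcl w h F := all_GRM hBV hP w hw k h hk0 hAdm.1 P.T F hOk.hT1 hOk.hT2 hF
  have h4 : YmConcl P.T F := by
    intro δ hδ0 hδ1
    obtain ⟨C, _, hC⟩ := all_YM k P.T F hOk.hT1 hOk.hT2 hF δ hδ0 hδ1
    obtain ⟨D1, hD1⟩ := hC 1 one_pos
    refine ⟨D1, fun D0 hD0 => ?_⟩
    obtain ⟨x0, hx0⟩ := hD1 D0 hD0
    exact ⟨x0, fun x hx m r => (hx0 x hx m r).2.1⟩
  have h5 : S2Concl w h P F := prf_S2A prf_INV prf_RS prf_DEC prf_LIN prf_AL prf_ALD
    (prf_GII prf_MG) (prf_JD prf_MG) w hw k h hk0 P F hOk hF h3 h2 h4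
  exact main_many r hr prf_V0 w hw k h hk0 hAdm P F hOk hF hCrit h1 h5

end MPb51559.BG
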