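import Pool.Agent.Work.MP_b51559_nt.BG.TP.Many
import Pool.Agent.Work.MP_b51559_nt.BG.Q.Defs

set_option autoImplicit false

/-!
# More than r primes: the criterion with the plain functional on the simplex of size 1
-/

namespace MPb51559.BG.TP

open Finset Filter Topology MeasureTheory
open scoped Classical

/-- the slice data without slices, `T` slightly larger than 1 -/
noncomputable def Pn (n : ℕ) : Sl := ⟨1 + 1 / ((n : ℝ) + 2), 0, fun _ => 0, fun _ => 0⟩

theorem Pn_lt (n : ℕ) : 0 < 1 / ((n : ℝ) + 2) ∧ 1 / ((n : ℝ) + 2) < 1 := by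
  have h : (0 : ℝ) ≤ n := Nat.cast_nonneg n
  refine ⟨by positivity, ?_⟩
  rw [div_lt_one (by linarith)]
  linarith

theorem Pn_ok (n : ℕ) : (Pn n).Ok where
  hT1 := by have := Pn_lt n; simp only [Pn]; linarith
  hT2 := by have := Pn_lt n; simp only [Pn]; linarith
  z0 := rfl
  zmono := by intro l hl; simp [Pn] at hl
  zT := by have := Pn_lt n; simp only [Pn]; linarith
  Lpos := by intro l hl; simp [Pn] at hl
  Lmono := by intro l hl; simp [Pn] at hl

theorem Pn_rho (n : ℕ) (s : ℝ) : (Pn n).rho s = if s ≤ 1 - 1 / ((n : ℝ) + 2) then 1 else 0 := by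
  unfold Sl.rho
  simp only [Pn, range_zero, sum_empty]
  congr 1
  apply propext
  constructor <;> intro h <;> linarith

/-- the marginal vanishes on the boundary of the simplex -/
theorem marg_bdry {k : ℕ} {F : (Fin k → ℝ) → ℝ} (hF : Tst k 1 F) (m : Fin k) (t : Fin k → ℝ)
    (ht : 1 ≤ ∑ j ∈ univ.erase m, t j) : marg F m t = 0 := by
  unfold marg
  have h1 : (fun s => F (Function.update t m s)) =ᵐ[volume] fun _ => (0 : ℝ) := by
    have h2 : ∀ᵐ s : ℝ, s ≠ 0 := by
      rw [ae_iff]
      simp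
    filter_upwards [h2] with s hs
    by_contra hne
    obtain ⟨h3, h4⟩ := hF.supp _ hne
    have h5 := h3 m
    rw [Function.update_self] at h5
    rw [← Finset.add_sum_erase univ _ (mem_univ m), Function.update_self] at h4
    have h6 : ∑ j ∈ univ.erase m, Function.update t m s j = ∑ j ∈ univ.erase m, t j := by
      apply sum_congr rfl
      intro j hj
      rw [Function.update_of_ne (ne_of_mem_erase hj)]
    rw [h6] at h4
    have : 0 < s := lt_of_le_of_ne h5 hs.symm
    linarith
  rw [integral_congr_ae h1]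
  simp

theorem Jm_tendsto {k : ℕ} {F : (Fin k → ℝ) → ℝ} (hF : Tst k 1 F) (m : Fin k) :
    Tendsto (fun n : ℕ => Jm (Pn n) F m) atTop (𝓝 (Q.JJ F m)) := by
  obtain ⟨M, V, hM, hmg⟩ := prf_MG k 1 F one_pos hF
  obtain ⟨hmeas, hb, hc, hsupp, hv⟩ := hmg m
  have hset : MeasurableSet {t : Fin k → ℝ | 0 ≤ t m ∧ t m < 1} :=
    (measurableSet_le measurable_const (measurable_pi_apply m)).inter
      (measurableSet_lt (measurable_pi_apply m) measurable_const)
  have e : Q.JJ F m = ∫ t, cutm m (fun t => marg F m t ^ 2) t := rfl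
  rw [e]
  have e2 : ∀ n, Jm (Pn n) F m = ∫ t, Set.indicator {t : Fin k → ℝ | 0 ≤ t m ∧ t m < 1}
      (fun t => (Pn n).rho (∑ j ∈ univ.erase m, t j) * marg F m t ^ 2) t := by
    intro n
    unfold Jm
    rw [integral_indicator hset]
  simp only [e2]
  -- the bound
  set C : Set (Fin k → ℝ) := Set.Icc (fun _ => (0 : ℝ)) (fun _ => (1 : ℝ)) with hC
  have hCm : MeasurableSet C := measurableSet_Icc
  have hin : ∀ t : Fin k → ℝ, (0 ≤ t m ∧ t m < 1) → marg F m t ≠ 0 → t ∈ C := by
    intro t ht hne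
    obtain ⟨h1, h2⟩ := hsupp t hne
    have h0 : ∀ i, 0 ≤ t i := by
      intro i
      by_cases hi : i = m
      · rw [hi]; exact ht.1
      · exact h1 i hi
    rw [hC, Set.mem_Icc]
    refine ⟨fun i => h0 i, fun i => ?_⟩
    by_cases hi : i = m
    · rw [hi]; exact ht.2.le
    · refine le_trans ?_ h2
      exact single_le_sum (f := fun j => t j) (fun j _ => h0 j) (mem_erase.2 ⟨hi, mem_univ i⟩)
  refine tendsto_integral_of_dominated_convergence (C.indicator fun _ => M ^ 2) ?_ ?_ ?_ ?_
  · intro n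
    apply Measurable.aestronglyMeasurable
    apply Measurable.indicator _ hset
    refine Measurable.mul ?_ (hmeas.pow_const 2)
    have : (fun t : Fin k → ℝ => (Pn n).rho (∑ j ∈ univ.erase m, t j)) =
        fun t : Fin k → ℝ => if ∑ j ∈ univ.erase m, t j ≤ 1 - 1 / ((n : ℝ) + 2) then (1 : ℝ) else 0 := by
      funext t
      rw [Pn_rho]
    rw [this]
    refine Measurable.ite ?_ measurable_const measurable_const
    exact measurableSet_le (Finset.measurable_sum _ fun j _ => measurable_pi_apply j) measurable_const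
  · rw [integrable_indicator_iff hCm]
    refine integrableOn_const ?_
    rw [hC]
    exact isCompact_Icc.measure_lt_top.ne
  · intro n
    refine Eventually.of_forall fun t => ?_
    by_cases ht : 0 ≤ t m ∧ t m < 1
    · rw [Set.indicator_of_mem (show t ∈ {t : Fin k → ℝ | 0 ≤ t m ∧ t m < 1} from ht)]
      by_cases hz : marg F m t = 0
      · rw [hz]
        simp only [ne_eq, OfNat.ofNat_ne_zero, not_false_eq_true, zero_pow, mul_zero, norm_zero]
        exact Set.indicator_nonneg (fun _ _ => sq_nonneg M) t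
      · rw [Set.indicator_of_mem (hin t ht hz), Pn_rho, Real.norm_eq_abs, abs_mul, abs_pow]
        have h1 : |marg F m t| ^ 2 ≤ M ^ 2 := pow_le_pow_left₀ (abs_nonneg _) (hb t) 2
        have h2 : |if ∑ j ∈ univ.erase m, t j ≤ 1 - 1 / ((n : ℝ) + 2) then (1 : ℝ) else 0| ≤ 1 := by
          split_ifs <;> simp
        calc _ ≤ 1 * M ^ 2 := mul_le_mul h2 h1 (by positivity) zero_le_one
          _ = M ^ 2 := one_mul _
    · rw [Set.indicator_of_notMem (show t ∉ {t : Fin k → ℝ | 0 ≤ t m ∧ t m < 1} from ht)]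
      rw [norm_zero]
      exact Set.indicator_nonneg (fun _ _ => sq_nonneg M) t
  · refine Eventually.of_forall fun t => ?_
    by_cases ht : 0 ≤ t m ∧ t m < 1
    · have e3 : cutm m (fun t => marg F m t ^ 2) t = marg F m t ^ 2 := by
        unfold cutm
        rw [if_pos ht]
      rw [e3]
      by_cases hz : 1 ≤ ∑ j ∈ univ.erase m, t j
      · have h0 := marg_bdry hF m t hz
        rw [h0]
        have : (fun n : ℕ => Set.indicator {t : Fin k → ℝ | 0 ≤ t m ∧ t m < 1}
            (fun t => (Pn n).rho (∑ j ∈ univ.erase m, t j) * marg F m t ^ 2) t) =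
            fun _ => (0 : ℝ) := by
          funext n
          rw [Set.indicator_of_mem (show t ∈ {t : Fin k → ℝ | 0 ≤ t m ∧ t m < 1} from ht), h0]
          simp
        rw [this]
        simp
      · rw [not_le] at hz
        have hev : ∀ᶠ n : ℕ in atTop, ∑ j ∈ univ.erase m, t j ≤ 1 - 1 / ((n : ℝ) + 2) := by
          have h1 : Tendsto (fun n : ℕ => 1 - 1 / ((n : ℝ) + 2)) atTop (𝓝 (1 - 0)) := by
            refine Tendsto.sub tendsto_const_nhds ?_
            refine Tendsto.div_atTop tendsto_const_nhds ?_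
            exact tendsto_atTop_add_const_right _ _ tendsto_natCast_atTop_atTop
          rw [sub_zero] at h1
          exact (h1.eventually (lt_mem_nhds hz)).mono fun n hn => le_of_lt hn
        refine tendsto_const_nhds.congr' ?_
        filter_upwards [hev] with n hn
        rw [Set.indicator_of_mem (show t ∈ {t : Fin k → ℝ | 0 ≤ t m ∧ t m < 1} from ht), Pn_rho,
          if_pos hn, one_mul]
    · have e3 : cutm m (fun t => marg F m t ^ 2) t = 0 := by
        unfold cutm
        rw [if_neg ht]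
      rw [e3]
      have : (fun n : ℕ => Set.indicator {t : Fin k → ℝ | 0 ≤ t m ∧ t m < 1}
          (fun t => (Pn n).rho (∑ j ∈ univ.erase m, t j) * marg F m t ^ 2) t) =
          fun _ => (0 : ℝ) := by
        funext n
        rw [Set.indicator_of_notMem (show t ∉ {t : Fin k → ℝ | 0 ≤ t m ∧ t m < 1} from ht)]
      rw [this]
      exact tendsto_const_nhds

/-- the criterion with the plain functional -/
theorem plain_many (hBV : BVE) (hP : PNTW) (r : ℕ) (hr : 0 < r) (k : ℕ) (hk0 : 0 < k)
    (h : Fin k → ℕ) (hAdm : Adm h) (F : (Fin k → ℝ) → ℝ) (hF : Tst k 1 F)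
    (hc : 4 * r * ∫ t, F t ^ 2 < ∑ m, Q.JJ F m) : ManyPrimes r h := by
  have h1 : Tendsto (fun n : ℕ => ∑ m, Jm (Pn n) F m) atTop (𝓝 (∑ m, Q.JJ F m)) :=
    tendsto_finsetSum _ fun m _ => Jm_tendsto hF m
  obtain ⟨n, hn⟩ := (h1.eventually (lt_mem_nhds hc)).exists
  refine sieve_many hBV hP r hr k hk0 h hAdm (Pn n) (Pn_ok n) F ?_ hn
  refine ⟨hF.meas, fun t ht => ⟨(hF.supp t ht).1, le_trans (hF.supp t ht).2 ?_⟩, hF.bdd, hF.bv⟩
  have := (Pn_ok n).hT1
  linarith

end MPb51559.BG.TP
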